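import Mathlib

/-!
# Counting fixed roots of `X ^ q - c`
-/

set_option autoImplicit false

namespace Pool.Agent.Lib.MP_1a91b9_ntA

/-- The number of solutions of `a + ε j = j` modulo `q`. -/
noncomputable def sol {q : ℕ} (ε a : ZMod q) : ℕ := Nat.card {j : ZMod q // a + ε * j = j}

theorem sol_ne {q : ℕ} [Fact q.Prime] {ε : ZMod q} (h : ε ≠ 1) (a : ZMod q) : sol ε a = 1 := by
  unfold sol
  rw [Nat.card_eq_one_iff_unique]
  have h1 : (1 : ZMod q) - ε ≠ 0 := sub_ne_zero.mpr (Ne.symm h)
  refine ⟨⟨fun x y => Subtype.ext ?_⟩, ⟨⟨a / (1 - ε), ?_⟩⟩⟩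
  · have hx := x.2
    have hy := y.2
    have h2 : (1 - ε) * (x.1 - y.1) = 0 := by linear_combination hy - hx
    rcases mul_eq_zero.mp h2 with h3 | h3
    · exact absurd h3 h1
    · exact sub_eq_zero.mp h3
  · have h3 : a / (1 - ε) * (1 - ε) = a := div_mul_cancel₀ a h1
    linear_combination -h3

theorem sol_one {q : ℕ} [Fact q.Prime] (a : ZMod q) :
    sol 1 a = if a = 0 then q else 0 := by
  unfold sol
  split_ifs with h
  · have h1 : Nat.card {j : ZMod q // a + 1 * j = j} = Nat.card (ZMod q) := by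
      refine Nat.card_congr (Equiv.subtypeUnivEquiv fun j => ?_)
      rw [h]
      ring
    rw [h1, Nat.card_zmod]
  · have h1 : IsEmpty {j : ZMod q // a + 1 * j = j} := by
      refine ⟨fun j => h ?_⟩
      have := j.2
      linear_combination this
    exact Nat.card_of_isEmpty

/-- The relation between the numbers of solutions. -/
theorem sol_rel {q : ℕ} [Fact q.Prime] (ε a b : ZMod q) :
    ∑ i : ZMod q, sol ε (i * a + b) + sol ε a = sol ε a * sol ε b + q := by
  have hq : 0 < q := (Fact.out : q.Prime).pos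
  by_cases hε : ε = 1
  · subst hε
    by_cases ha : a = 0
    · subst ha
      simp only [mul_zero, zero_add, sol_one, Finset.sum_const, Finset.card_univ, ZMod.card,
        smul_eq_mul, if_true]
    · have h1 : ∀ i : ZMod q, sol 1 (i * a + b) = if i = -b / a then q else 0 := by
        intro i
        rw [sol_one]
        have : i * a + b = 0 ↔ i = -b / a := by
          rw [eq_div_iff ha]
          constructor
          · intro h
            linear_combination h
          · intro h
            linear_combination h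
        simp only [this]
      rw [Finset.sum_congr rfl fun i _ => h1 i, Finset.sum_ite_eq', if_pos (Finset.mem_univ _),
        sol_one, if_neg ha]
      ring
  · rw [Finset.sum_congr rfl fun i _ => sol_ne hε (i * a + b), sol_ne hε, sol_ne hε]
    simp [ZMod.card]
    ring

section roots

variable {M : Type*} [Field M] {q : ℕ} [Fact q.Prime] {ω : M} (hω : IsPrimitiveRoot ω q)

/-- the power of `ω` with exponent in `ZMod q` -/
def ex (ω : M) (j : ZMod q) : M := ω ^ j.val

include hω in
theorem ex_add (i j : ZMod q) : ex ω (i + j) = ex ω i * ex ω j := by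
  have hq : 0 < q := (Fact.out : q.Prime).pos
  unfold ex
  rw [← pow_add, ZMod.val_add, ← pow_eq_pow_mod _ hω.pow_eq_one]

include hω in
theorem ex_mul (i j : ZMod q) : ex ω (i * j) = (ex ω i) ^ j.val := by
  unfold ex
  rw [← pow_mul, ZMod.val_mul, ← pow_eq_pow_mod _ hω.pow_eq_one]

include hω in
theorem ex_inj : Function.Injective (ex (q := q) ω) := by
  have : NeZero q := ⟨(Fact.out : q.Prime).ne_zero⟩
  intro i j h
  exact ZMod.val_injective q (hω.pow_inj (ZMod.val_lt i) (ZMod.val_lt j) h)

include hω in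
theorem ex_surj {x : M} (hx : x ^ q = 1) : ∃ j : ZMod q, ex ω j = x := by
  have : NeZero q := ⟨(Fact.out : q.Prime).ne_zero⟩
  obtain ⟨i, hi, h⟩ := hω.eq_pow_of_pow_eq_one hx
  refine ⟨(i : ZMod q), ?_⟩
  unfold ex
  rw [ZMod.val_natCast_of_lt hi, h]

include hω in
theorem ex_ne_zero (j : ZMod q) : ex ω j ≠ 0 :=
  pow_ne_zero _ (hω.ne_zero (Fact.out : q.Prime).ne_zero)

include hω in
theorem ex_pow (j : ZMod q) : (ex ω j) ^ q = 1 := by
  unfold ex
  rw [← pow_mul, mul_comm, pow_mul, hω.pow_eq_one, one_pow]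

include hω in
/-- The number of roots of `X ^ q - y ^ q` fixed by `g`. -/
theorem card_fix (g : M →+* M) {ε : ZMod q} (hε : g ω = ex ω ε) {y : M} (hy : y ≠ 0)
    {a : ZMod q} (ha : g y = y * ex ω a) :
    Nat.card {b : M // b ^ q = y ^ q ∧ g b = b} = sol ε a := by
  have hg : ∀ j : ZMod q, g (y * ex ω j) = y * ex ω (a + ε * j) := by
    intro j
    rw [map_mul, ha, ex_add hω, ex_mul hω, mul_assoc]
    congr 2
    unfold ex
    rw [map_pow, hε]
    rfl
  symm
  unfold sol
  refine Nat.card_congr (Equiv.ofBijective (fun j => ⟨y * ex ω j.1, ?_, ?_⟩) ⟨?_, ?_⟩)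
  · rw [mul_pow, ex_pow hω, mul_one]
  · rw [hg, j.2]
  · intro i j h
    have h1 : y * ex ω i.1 = y * ex ω j.1 := congrArg Subtype.val h
    exact Subtype.ext (ex_inj hω (mul_left_cancel₀ hy h1))
  · rintro ⟨b, hb, hgb⟩
    obtain ⟨j, hj⟩ := ex_surj hω (x := b / y) (by rw [div_pow, hb, div_self (pow_ne_zero _ hy)])
    have hbj : b = y * ex ω j := by
      rw [hj, mul_div_cancel₀ _ hy]
    refine ⟨⟨j, ?_⟩, Subtype.ext hbj.symm⟩
    apply ex_inj hω
    apply mul_left_cancel₀ hy
    rw [← hg, ← hbj, hgb]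

end roots

end Pool.Agent.Lib.MP_1a91b9_ntA
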