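import Pool.Agent.Lib.MP_1a91b9_nt.RankMod

/-!
# A relation of permutation characters with a multiple of the trivial character
-/

set_option autoImplicit false

namespace Pool.Agent.Lib.MP_1a91b9_ntA

open IsDedekindDomain NumberField Polynomial IntermediateField Pool.Agent.Lib.MP_1a91b9_nt

universe u

/-- The rank part of the conjecture modulo `m` for the `k`-th power of the `L`-series. -/
def RankModPow {K : Type*} [Field K] [NumberField K] (k m : ℕ) (W : WeierstrassCurve K) : Prop :=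
  ∃ (g : ℂ → ℂ) (r : ℕ) (o : ℤ), MeromorphicOn g Set.univ ∧
    (∀ s : ℂ, 2 < s.re → g s = W.LSeries s ^ k) ∧
    mwRank W = r ∧ meromorphicOrderAt g 1 = (o : WithTop ℤ) ∧ (m : ℤ) ∣ o - k * r

section core

variable {F M : Type u} [Field F] [NumberField F] [Field M] [NumberField M] [Algebra F M]
  [IsGalois F M]

theorem core_modPow (W : WeierstrassCurve F) [W.IsElliptic] (n : Subgroup Gal(M/F) → ℤ) (k m : ℕ)
    (hk : k ≠ 0) (hrel : ∀ g : Gal(M/F), ∑ H, n H * fixNum H g = k)
    (hH : ∀ H, n H ≠ 0 → RankMod m (W.baseChange (fixedField H))) :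
    RankModPow k m W := by
  classical
  obtain ⟨R, hR1, hR2, hR3, hR4⟩ := product_formula W n k hrel
  obtain ⟨r, ρ, hr, hρ, hsum⟩ := rank_relation_of_ne W n k hk hrel
    fun H h => (hH H h).finite
  have key : ∀ H : Subgroup Gal(M/F), ∃ (g : ℂ → ℂ) (o : ℤ), MeromorphicOn g Set.univ ∧
      (∀ s : ℂ, 2 < s.re →
        g s = (W.baseChange (fixedField H)).LSeries s ^ (n H)) ∧
      meromorphicOrderAt g 1 = ((n H * o : ℤ) : WithTop ℤ) ∧ (m : ℤ) ∣ n H * o - n H * ρ H := by
    intro H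
    by_cases h0 : n H = 0
    · refine ⟨fun _ => 1, 0, MeromorphicOn.const 1, ?_, ?_, ?_⟩
      · intro s _
        simp [h0]
      · rw [meromorphicOrderAt_const]
        simp [h0]
      · simp [h0]
    · obtain ⟨g, r', o, hg1, hg2, hg3, hg4, hg5⟩ := hH H h0
      have hr' : r' = ρ H := by
        have := hg3.symm.trans (hρ H h0)
        exact_mod_cast this
      subst hr'
      refine ⟨g ^ (n H), o, hg1.zpow (n H), ?_, ?_, ?_⟩
      · intro s hs
        rw [Pi.pow_apply, hg2 s hs]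
      · rw [meromorphicOrderAt_zpow (hg1 1 (Set.mem_univ _)), hg4]
        norm_cast
      · rw [← mul_sub]
        exact Dvd.dvd.mul_left hg5 _
  choose g o hg1 hg2 hg3 hg4 using key
  refine ⟨(∏ H, g H) * R⁻¹, r, ∑ H, n H * o H, ?_, ?_, hr, ?_, ?_⟩
  · exact (MeromorphicOn.prod fun H _ => hg1 H).mul hR1.inv
  · intro s hs
    rw [Pi.mul_apply, Pi.inv_apply, Finset.prod_apply]
    rw [Finset.prod_congr rfl fun H _ => hg2 H s hs, hR4 s hs,
      mul_assoc, mul_inv_cancel₀ (hR3 s hs), mul_one]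
  · rw [meromorphicOrderAt_mul ((MeromorphicOn.prod fun H _ => hg1 H) 1 (Set.mem_univ _))
      (hR1.inv 1 (Set.mem_univ _)), meromorphicOrderAt_inv, hR2,
      meromorphicOrderAt_prod fun H _ => hg1 H 1 (Set.mem_univ _)]
    rw [Finset.sum_congr rfl fun H _ => hg3 H, WithTop.coe_sum]
    simp
  · have h1 : ∑ H, n H * o H - (k : ℤ) * (r : ℤ) = ∑ H, (n H * o H - n H * ρ H) := by
      rw [Finset.sum_sub_distrib, hsum]
    rw [h1]
    exact Finset.dvd_sum fun H _ => hg4 H

end core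

/-- From two powers with coprime exponents to the `L`-series itself. -/
theorem RankModPow.coprime {K : Type*} [Field K] [NumberField K] {W : WeierstrassCurve K}
    [W.IsElliptic] {k l m : ℕ} (hkl : Nat.Coprime k l) (h : RankModPow k m W)
    (h' : RankModPow l m W) : RankMod m W := by
  obtain ⟨g, r, o, hg1, hg2, hg3, hg4, hg5⟩ := h
  obtain ⟨g', r', o', hg1', hg2', hg3', hg4', hg5'⟩ := h'
  have hr : r' = r := by
    rw [hg3] at hg3'
    exact_mod_cast hg3'.symm
  subst hr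
  obtain ⟨a, b, hab⟩ : ∃ a b : ℤ, (k : ℤ) * a + l * b = 1 := by
    have h1 := Nat.gcd_eq_gcd_ab k l
    rw [Nat.Coprime] at hkl
    rw [hkl] at h1
    exact ⟨_, _, h1.symm⟩
  refine ⟨g ^ a * g' ^ b, r', a * o + b * o', (hg1.zpow a).mul (hg1'.zpow b), ?_, hg3, ?_, ?_⟩
  · intro s hs
    have hL : W.LSeries s ≠ 0 := LSeries_ne_zero W hs
    rw [Pi.mul_apply, Pi.pow_apply, Pi.pow_apply, hg2 s hs, hg2' s hs, ← zpow_natCast,
      ← zpow_natCast, ← zpow_mul, ← zpow_mul, ← zpow_add₀ hL, hab, zpow_one]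
  · rw [meromorphicOrderAt_mul ((hg1 1 (Set.mem_univ _)).zpow a) ((hg1' 1 (Set.mem_univ _)).zpow b),
      meromorphicOrderAt_zpow (hg1 1 (Set.mem_univ _)), hg4,
      meromorphicOrderAt_zpow (hg1' 1 (Set.mem_univ _)), hg4']
    norm_cast
  · have e : a * o + b * o' - (r' : ℤ) = a * (o - k * r') + b * (o' - l * r') := by
      linear_combination (r' : ℤ) * hab
    rw [e]
    exact dvd_add (Dvd.dvd.mul_left hg5 _) (Dvd.dvd.mul_left hg5' _)

end Pool.Agent.Lib.MP_1a91b9_ntA
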