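import Pool.Agent.Lib.MP_1a91b9_ntA.LawK
import Pool.Agent.Lib.MP_1a91b9_nt.LRMerge

/-!
# The majority law
-/

set_option autoImplicit false

namespace Pool.Agent.Lib.MP_1a91b9_ntA

open IsDedekindDomain NumberField Polynomial IntermediateField Pool.Agent.Lib.MP_1a91b9_nt

universe u

attribute [local instance] isElliptic_baseChange

/-- The conjecture modulo `m` over a field follows from the conjecture for more than `1 - 1 / l` of
the extensions generated by two `l`-th roots, for two primes `l`, of its extensions of bounded degree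
and larger rank. -/
theorem law_all {F : Type u} [Field F] [NumberField F] (W : WeierstrassCurve F)
    [W.IsElliptic] (S : Finset (HeightOneSpectrum (𝓞 F))) (ψ : F[X]) (hψ : ψ ≠ 0) {p q : ℕ}
    (hp : p.Prime) (hq : q.Prime) (hpq : p ≠ q) (m R : ℕ)
    (h : ∀ (K : Type u) [Field K] [NumberField K] [Algebra F K],
      Module.finrank F K ∣ 12 ^ R → InSplitSolvable S K →
      Nat.card (ψ.map (algebraMap F K)).Gal = Nat.card ψ.Gal →
      mwRank W + (R : Cardinal) ≤ mwRank (W.baseChange K) →
      ∀ l : ℕ, l = p ∨ l = q → ∃ V : Subgroup (Kˣ ⧸ (powMonoidHom l : Kˣ →* Kˣ).range),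
        Finite V ∧ (l - 1) * Nat.card V ^ 2 < l * Nat.card (Good l m (W.baseChange K) V)) :
    RankMod m W := by
  have hid : ψ.map (algebraMap F F) = ψ := Polynomial.map_id
  have hWF : W.baseChange F = W := WeierstrassCurve.map_id W
  have h1 : RankMod m (W.baseChange F) := by
    refine split_card_mod W S ψ hψ m R F (inSplitSolvable_self S) ?_
    intro K _ _ aFK aFK' ht hd hS hc hr
    have e : aFK' = aFK := by
      refine Algebra.algebra_ext _ _ fun r => ?_
      exact (@IsScalarTower.algebraMap_apply F F K _ _ _ _ aFK' aFK ht r).symm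
    subst e
    rw [hid] at hc
    rw [hWF] at hr
    exact law_one (W.baseChange K) m hp hq hpq (h K hd hS hc hr)
  rwa [hWF] at h1

end Pool.Agent.Lib.MP_1a91b9_ntA
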