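import Mathlib

/-!
# Roots of natural numbers which are not in a number field
-/

set_option autoImplicit false

namespace Pool.Agent.Lib.MP_1a91b9_ntA

open NumberField Polynomial

/-- Let `p` be a prime which is unramified in `K` and divides `c` exactly once. Then `X ^ q - c` is
irreducible over `K` for every prime `q`. -/
theorem irr_nat {K : Type*} [Field K] [NumberField K] {p : ℕ} (hp : p.Prime)
    (hd : ¬ (p : ℤ) ∣ discr K) {q : ℕ} (hq : q.Prime) {c : ℕ} (h1 : p ∣ c) (h2 : ¬ p ^ 2 ∣ c) :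
    Irreducible (X ^ q - C (c : K)) := by
  refine X_pow_sub_C_irreducible_of_prime hq fun b hb => ?_
  have hint : IsIntegral ℤ b := by
    refine IsIntegral.of_pow hq.pos ?_
    rw [hb]
    exact isIntegral_natCast c
  obtain ⟨B, hB⟩ : ∃ B : 𝓞 K, (B : K) = b := ⟨⟨b, hint⟩, rfl⟩
  have hBc : B ^ q = (c : 𝓞 K) := by
    apply RingOfIntegers.ext
    change algebraMap (𝓞 K) K (B ^ q) = algebraMap (𝓞 K) K (c : 𝓞 K)
    rw [map_pow, map_natCast]
    change (B : K) ^ q = (c : K)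
    rw [hB, hb]
  have hpZ : Prime (p : ℤ) := Nat.prime_iff_prime_int.mp hp
  have hp0 : (Ideal.span {(p : ℤ)} : Ideal ℤ) ≠ ⊥ := by
    rw [Ne, Ideal.span_singleton_eq_bot]
    exact hpZ.ne_zero
  have hmax : (Ideal.span {(p : ℤ)} : Ideal ℤ).IsMaximal :=
    ((Ideal.span_singleton_prime hpZ.ne_zero).mpr hpZ).isMaximal hp0
  obtain ⟨P, hP1, hP2⟩ := Ideal.exists_maximal_ideal_liesOver_of_isIntegral (S := 𝓞 K)
    (Ideal.span {(p : ℤ)} : Ideal ℤ)
  have hPp : P.IsPrime := hP1.isPrime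
  have hunr : Algebra.IsUnramifiedAt ℤ P :=
    (not_dvd_discr_iff_forall_liesOver K (𝓞 K) hpZ).mp hd P hP1 hP2
  have he : Ideal.ramificationIdx P ℤ = 1 := Ideal.ramificationIdx_eq_one P ℤ
  have he' : Ideal.ramificationIdx' (Ideal.span {(p : ℤ)}) P = 1 := by
    rw [Ideal.ramificationIdx'_eq_ramificationIdx _ _ hp0, he]
  have hle : Ideal.map (algebraMap ℤ (𝓞 K)) (Ideal.span {(p : ℤ)}) ≤ P := by
    rw [Ideal.map_le_iff_le_comap]
    exact (hP2.over).le
  have hP2' : ¬ Ideal.map (algebraMap ℤ (𝓞 K)) (Ideal.span {(p : ℤ)}) ≤ P ^ 2 := fun h =>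
    (Ideal.ramificationIdx'_ne_one_iff hle).mpr h he'
  rw [Ideal.map_span, Set.image_singleton, Ideal.span_singleton_le_iff_mem] at hle hP2'
  have e1 : algebraMap ℤ (𝓞 K) (p : ℤ) = (p : 𝓞 K) := by simp
  rw [e1] at hle hP2'
  obtain ⟨u, hu⟩ := h1
  have hpu : ¬ p ∣ u := by
    rintro ⟨w, rfl⟩
    exact h2 ⟨w, by rw [hu]; ring⟩
  have huP : (u : 𝓞 K) ∉ P := by
    intro h
    have h3 : (u : ℤ) ∈ P.under ℤ := by
      rw [Ideal.under_def, Ideal.mem_comap]
      simpa using h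
    rw [← hP2.over, Ideal.mem_span_singleton] at h3
    exact hpu (by exact_mod_cast h3)
  have hcP : (c : 𝓞 K) = p * u := by
    rw [hu]
    push_cast
    ring
  have hBP : B ∈ P := by
    refine hPp.mem_of_pow_mem q ?_
    rw [hBc, hcP]
    exact P.mul_mem_right _ hle
  have hc2 : (c : 𝓞 K) ∈ P ^ 2 := by
    rw [← hBc]
    exact Ideal.pow_le_pow_right hq.two_le (Ideal.pow_mem_pow hBP q)
  rw [hcP] at hc2
  rw [mul_comm] at hc2
  have h5 : (p : 𝓞 K) ∈ P ^ 2 := (Ideal.IsPrime.mul_mem_pow P hc2).resolve_left huP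
  exact hP2' h5

/-- Almost all primes are unramified. -/
theorem exists_unramified (K : Type*) [Field K] [NumberField K] (N : ℕ) :
    ∃ p : ℕ, p.Prime ∧ N < p ∧ ¬ (p : ℤ) ∣ discr K := by
  obtain ⟨p, hp1, hp2⟩ := Nat.exists_infinite_primes (N + 1 + (discr K).natAbs)
  refine ⟨p, hp2, by omega, fun h => ?_⟩
  have h1 := Int.natAbs_dvd_natAbs.mpr h
  rw [Int.natAbs_natCast] at h1
  have h2 : 0 < (discr K).natAbs := Int.natAbs_pos.mpr (discr_ne_zero K)
  have := Nat.le_of_dvd h2 h1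
  omega

end Pool.Agent.Lib.MP_1a91b9_ntA
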