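import Pool.Agent.Lib.MP_1a91b9_nt.S4Stab
import Pool.Agent.Lib.MP_1a91b9_ntA.Irr

/-!
# Fields generated by one root, and by two roots
-/

set_option autoImplicit false

namespace Pool.Agent.Lib.MP_1a91b9_ntA

open NumberField Polynomial IntermediateField Pool.Agent.Lib.MP_1a91b9_nt

universe u

/-- The field generated by a `q`-th root of `c`. -/
theorem ext_root {K : Type u} [Field K] [NumberField K] {q : ℕ} (hq : q.Prime) {c : K}
    (hc : ∀ b : K, b ^ q ≠ c) :
    ∃ (K' : Type u) (_ : Field K') (_ : NumberField K') (_ : Algebra K K') (x : K'),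
      x ^ q = algebraMap K K' c ∧ K⟮x⟯ = ⊤ ∧ Module.finrank K K' = q ∧
      minpoly K x = X ^ q - C c ∧
      ∀ (M : Type u) [Field M] [Algebra K M] (y : M), y ^ q = algebraMap K M c →
        ∃ φ : K' →ₐ[K] M, φ x = y := by
  have hirr : Irreducible (X ^ q - C c : K[X]) := X_pow_sub_C_irreducible_of_prime hq hc
  have hfact : Fact (Irreducible (X ^ q - C c : K[X])) := ⟨hirr⟩
  have hne : (X ^ q - C c : K[X]) ≠ 0 := hirr.ne_zero
  have hmonic : (X ^ q - C c : K[X]).Monic := monic_X_pow_sub_C c hq.ne_zero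
  let K' := AdjoinRoot (X ^ q - C c : K[X])
  have hch : CharZero K' := charZero_of_injective_algebraMap (algebraMap K K').injective
  have hfd : FiniteDimensional K K' := (AdjoinRoot.powerBasis hne).finite
  have hnf : NumberField K' := NumberField.of_module_finite K K'
  have hx : (AdjoinRoot.root (X ^ q - C c : K[X])) ^ q = algebraMap K K' c := by
    have h1 := AdjoinRoot.eval₂_root (X ^ q - C c : K[X])
    rw [eval₂_sub, eval₂_pow, eval₂_X, eval₂_C] at h1
    exact sub_eq_zero.mp h1
  have hmin : minpoly K (AdjoinRoot.root (X ^ q - C c : K[X])) = X ^ q - C c := by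
    refine (minpoly.eq_of_irreducible_of_monic hirr ?_ hmonic).symm
    rw [map_sub, map_pow, aeval_X, aeval_C, hx, sub_self]
  refine ⟨K', inferInstance, hnf, inferInstance, AdjoinRoot.root _, hx, ?_, ?_, hmin, ?_⟩
  · rw [eq_top_iff]
    intro z _
    have h1 : z ∈ Algebra.adjoin K ({AdjoinRoot.root (X ^ q - C c : K[X])} : Set K') := by
      rw [AdjoinRoot.adjoinRoot_eq_top]
      exact Algebra.mem_top
    exact IntermediateField.algebra_adjoin_le_adjoin K _ h1
  · rw [(AdjoinRoot.powerBasis hne).finrank, AdjoinRoot.powerBasis_dim, natDegree_X_pow_sub_C]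
  · intro M _ _ y hy
    refine ⟨AdjoinRoot.liftAlgHom (X ^ q - C c : K[X]) (Algebra.ofId K M) y ?_, ?_⟩
    · rw [eval₂_sub, eval₂_pow, eval₂_X, eval₂_C]
      change y ^ q - algebraMap K M c = 0
      rw [hy, sub_self]
    · exact AdjoinRoot.liftAlgHom_root _ _ _ _

/-- A Galois extension with roots of two numbers. -/
theorem ext_gal {K : Type u} [Field K] [NumberField K] {q : ℕ} (hq : q.Prime) (c d : K)
    (hc : c ≠ 0) (hd : d ≠ 0) :
    ∃ (M : Type u) (_ : Field M) (_ : NumberField M) (_ : Algebra K M) (_ : IsGalois K M)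
      (y z : M), y ^ q = algebraMap K M c ∧ z ^ q = algebraMap K M d := by
  let P : K[X] := (X ^ q - C c) * (X ^ q - C d)
  have hP1 : (X ^ q - C c : K[X]) ≠ 0 := X_pow_sub_C_ne_zero hq.pos c
  have hP2 : (X ^ q - C d : K[X]) ≠ 0 := X_pow_sub_C_ne_zero hq.pos d
  have hP : P ≠ 0 := mul_ne_zero hP1 hP2
  let M := P.SplittingField
  have : CharZero M := charZero_of_injective_algebraMap (algebraMap K M).injective
  have : FiniteDimensional K M := inferInstance
  have hNF : NumberField M := NumberField.of_module_finite K M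
  have : Normal K M := Normal.of_isSplittingField P
  have hG : IsGalois K M := ⟨⟩
  have hsP : (P.map (algebraMap K M)).Splits := SplittingField.splits P
  have hPM : P.map (algebraMap K M) ≠ 0 :=
    (Polynomial.map_ne_zero_iff (algebraMap K M).injective).mpr hP
  have key : ∀ a : K, (X ^ q - C a : K[X]) ∣ P → ∃ y : M, y ^ q = algebraMap K M a := by
    intro a ha
    have h1 : ((X ^ q - C a : K[X]).map (algebraMap K M)).Splits :=
      hsP.of_dvd hPM (Polynomial.map_dvd _ ha)
    have hdeg : ((X ^ q - C a : K[X]).map (algebraMap K M)).degree ≠ 0 := by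
      rw [degree_map, degree_X_pow_sub_C hq.pos]
      exact_mod_cast hq.ne_zero
    obtain ⟨y, hy⟩ := h1.exists_eval_eq_zero hdeg
    refine ⟨y, ?_⟩
    rw [eval_map, eval₂_sub, eval₂_pow, eval₂_X, eval₂_C] at hy
    exact sub_eq_zero.mp hy
  obtain ⟨y, hy⟩ := key c (dvd_mul_right _ _)
  obtain ⟨z, hz⟩ := key d (dvd_mul_left _ _)
  exact ⟨M, inferInstance, hNF, inferInstance, hG, y, z, hy, hz⟩

theorem gen_top {K M : Type u} [Field K] [Field M] [Algebra K M] (F : IntermediateField K M)
    {S : Set M} (hF : F = adjoin K S) (T : IntermediateField K F)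
    (hT : ∀ x (hx : x ∈ S), (⟨x, by rw [hF]; exact subset_adjoin K S hx⟩ : F) ∈ T) : T = ⊤ := by
  apply IntermediateField.lift_injective F
  rw [IntermediateField.lift_top]
  refine le_antisymm (IntermediateField.lift_le T) ?_
  conv_lhs => rw [hF]
  rw [adjoin_le_iff]
  intro x hx
  exact (IntermediateField.mem_lift (⟨x, by rw [hF]; exact subset_adjoin K S hx⟩ : F)).mpr
    (hT x hx)

end Pool.Agent.Lib.MP_1a91b9_ntA
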