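import Mathlib

/-!
# More than `1 - 1 / l` of the pairs
-/

set_option autoImplicit false

namespace Pool.Agent.Lib.MP_1a91b9_ntA

/-- The inequality between the numbers. -/
theorem maj_num {l n k c : ℕ} (hl : 2 ≤ l) (hk : k ≤ n) (h1 : c ≤ k * n)
    (h2 : c ≤ l * (k * (n - k))) : l * c ≤ (l - 1) * n ^ 2 := by
  obtain ⟨l, rfl⟩ : ∃ l', l = l' + 1 := ⟨l - 1, by omega⟩
  have hl1 : l + 1 - 1 = l := rfl
  rw [hl1]
  obtain ⟨s, rfl⟩ : ∃ s, n = k + s := ⟨n - k, by omega⟩
  have hs : k + s - k = s := by omega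
  rw [hs] at h2
  by_cases hc : (l + 1) * k ≤ l * (k + s)
  · calc (l + 1) * c ≤ (l + 1) * (k * (k + s)) := Nat.mul_le_mul_left _ h1
      _ = ((l + 1) * k) * (k + s) := by ring
      _ ≤ (l * (k + s)) * (k + s) := Nat.mul_le_mul_right _ hc
      _ = l * (k + s) ^ 2 := by ring
  · have h3 : l * s ≤ k := by
      have : l * (k + s) < (l + 1) * k := not_le.mp hc
      have e1 : l * (k + s) = l * k + l * s := by ring
      have e2 : (l + 1) * k = l * k + k := by ring
      omega
    have h4 : (l + 1) * ((l + 1) * (k * s)) ≤ l * (k + s) ^ 2 := by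
      obtain ⟨t, rfl⟩ : ∃ t, k = l * s + t := ⟨k - l * s, by omega⟩
      obtain ⟨l, rfl⟩ : ∃ l', l = l' + 1 := ⟨l - 1, by omega⟩
      nlinarith [Nat.zero_le (l * t * t), Nat.zero_le (l * s * t), Nat.zero_le (l * l * s * t),
        Nat.zero_le (t * t), Nat.zero_le (s * t)]
    exact (Nat.mul_le_mul_left _ h2).trans h4

/-- Among more than `1 - 1 / l` of the pairs there is one such that the first and all products are
in `G`. -/
theorem maj {V : Type*} [CommGroup V] [Finite V] {l : ℕ} (hl : 2 ≤ l) (G : Set V)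
    (P : Set (V × V)) (hP : ∀ t ∈ P, t.1 ∈ G)
    (h : (l - 1) * Nat.card V ^ 2 < l * Nat.card P) :
    ∃ t ∈ P, ∀ j, j < l → t.1 ^ j * t.2 ∈ G := by
  classical
  by_contra hcon
  push Not at hcon
  have : Fintype V := Fintype.ofFinite V
  let G' : Finset V := Finset.univ.filter (· ∈ G)
  let P' : Finset (V × V) := Finset.univ.filter (· ∈ P)
  have hPc : Nat.card P = P'.card := by
    rw [Nat.card_eq_fintype_card]
    exact Fintype.card_of_subtype P' fun t => by simp [P']
  have hV : Nat.card V = Fintype.card V := Nat.card_eq_fintype_card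
  have hk : G'.card ≤ Fintype.card V := Finset.card_le_univ _
  have h1 : P'.card ≤ G'.card * Fintype.card V := by
    rw [← Finset.card_univ, ← Finset.card_product]
    refine Finset.card_le_card fun t ht => ?_
    have ht' : t ∈ P := (Finset.mem_filter.mp ht).2
    exact Finset.mem_product.mpr ⟨Finset.mem_filter.mpr ⟨Finset.mem_univ _, hP t ht'⟩,
      Finset.mem_univ _⟩
  have h2 : P'.card ≤ l * (G'.card * (Fintype.card V - G'.card)) := by
    have hsub : P' ⊆ (Finset.range l).biUnion fun j =>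
        (Finset.univ.filter fun t : V × V => t.1 ∈ G' ∧ t.1 ^ j * t.2 ∈ G'ᶜ) := by
      intro t ht
      have ht' : t ∈ P := (Finset.mem_filter.mp ht).2
      obtain ⟨j, hj, hj'⟩ := hcon t ht'
      refine Finset.mem_biUnion.mpr ⟨j, Finset.mem_range.mpr hj, Finset.mem_filter.mpr
        ⟨Finset.mem_univ _, Finset.mem_filter.mpr ⟨Finset.mem_univ _, hP t ht'⟩, ?_⟩⟩
      rw [Finset.mem_compl]
      intro h3
      exact hj' (Finset.mem_filter.mp h3).2
    refine (Finset.card_le_card hsub).trans (Finset.card_biUnion_le.trans ?_)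
    have hcard : ∀ j ∈ Finset.range l,
        (Finset.univ.filter fun t : V × V => t.1 ∈ G' ∧ t.1 ^ j * t.2 ∈ G'ᶜ).card =
          G'.card * (Fintype.card V - G'.card) := by
      intro j _
      rw [← Finset.card_compl, ← Finset.card_product]
      refine Finset.card_bij (fun t _ => (t.1, t.1 ^ j * t.2)) ?_ ?_ ?_
      · intro t ht
        exact Finset.mem_product.mpr (Finset.mem_filter.mp ht).2
      · intro s _ t _ hst
        rw [Prod.mk.injEq] at hst
        obtain ⟨e1, e2⟩ := hst
        rw [e1] at e2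
        exact Prod.ext e1 (mul_left_cancel e2)
      · intro t ht
        have ht' := Finset.mem_product.mp ht
        refine ⟨(t.1, (t.1 ^ j)⁻¹ * t.2), Finset.mem_filter.mpr ⟨Finset.mem_univ _, ht'.1, ?_⟩, ?_⟩
        · rw [mul_inv_cancel_left]
          exact ht'.2
        · rw [mul_inv_cancel_left]
    rw [Finset.sum_congr rfl hcard, Finset.sum_const, Finset.card_range, smul_eq_mul]
  have h3 := maj_num hl hk h1 h2
  rw [hPc, hV] at h
  omega

end Pool.Agent.Lib.MP_1a91b9_ntA
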