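import Pool.Agent.Lib.MP_1a91b9_ntA.Rel

/-!
# Powers in a field generated by one root
-/

set_option autoImplicit false

namespace Pool.Agent.Lib.MP_1a91b9_ntA

open Polynomial IntermediateField Pool.Agent.Lib.MP_1a91b9_nt

universe u

variable {K M : Type u} [Field K] [CharZero K] [Field M] [Algebra K M] [FiniteDimensional K M]
  [IsGalois K M] {q : ℕ} [Fact q.Prime]

/-- an automorphism which fixes the roots of unity and moves `y` -/
theorem exists_move {e : K} {y : M} (hy : y ^ q = algebraMap K M e) (he : ∀ b : K, b ^ q ≠ e)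
    {ω : M} (hω : IsPrimitiveRoot ω q) : ∃ h : Gal(M/K), h ω = ω ∧ h y ≠ y := by
  classical
  have hq : q.Prime := Fact.out
  by_contra hcon
  push Not at hcon
  have h1 : fixingSubgroup K⟮ω⟯ ≤ fixingSubgroup K⟮y⟯ := by
    rw [← stab_eq, ← stab_eq]
    intro g hg
    exact hcon g hg
  have h2 : K⟮y⟯ ≤ K⟮ω⟯ := by
    have := IntermediateField.fixedField_antitone (F := K) (E := M) h1
    rwa [IsGalois.fixedField_fixingSubgroup, IsGalois.fixedField_fixingSubgroup] at this
  have hirr : Irreducible (X ^ q - C e : K[X]) := X_pow_sub_C_irreducible_of_prime hq he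
  have hroot : aeval y (X ^ q - C e : K[X]) = 0 := by
    rw [map_sub, map_pow, aeval_X, aeval_C, hy, sub_self]
  have h3 : Module.finrank K K⟮y⟯ = q := by
    rw [IntermediateField.adjoin.finrank (Algebra.IsIntegral.isIntegral y),
      ← minpoly.eq_of_irreducible_of_monic hirr hroot (monic_X_pow_sub_C e hq.ne_zero),
      natDegree_X_pow_sub_C]
  have h4 : Module.finrank K K⟮ω⟯ ≤ q - 1 := by
    rw [IntermediateField.adjoin.finrank (Algebra.IsIntegral.isIntegral ω)]
    have h5 : minpoly K ω ∣ cyclotomic q K := by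
      refine minpoly.dvd K ω ?_
      rw [← eval_map_algebraMap, map_cyclotomic]
      exact hω.isRoot_cyclotomic hq.pos
    have h6 := natDegree_le_of_dvd h5 (cyclotomic_ne_zero q K)
    rwa [natDegree_cyclotomic, Nat.totient_prime hq] at h6
  have h5 : Module.finrank K K⟮y⟯ ≤ Module.finrank K K⟮ω⟯ := IntermediateField.finrank_le_of_le_right h2
  have := hq.two_le
  omega

/-- If `d` is a `q`-th power in the field generated by a `q`-th root of `e`, then `d` is a `q`-th
power in `K` up to a power of `e`. -/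
theorem pow_of_pow_adjoin {e d : K} {y : M} (hy : y ^ q = algebraMap K M e)
    (he : ∀ b : K, b ^ q ≠ e) (hd0 : d ≠ 0) (z : K⟮y⟯) (hz : (z : M) ^ q = algebraMap K M d) :
    ∃ (i : ZMod q) (b : K), b ^ q = e ^ i.val * d := by
  classical
  have hq : q.Prime := Fact.out
  obtain ⟨ω, hω⟩ := exists_omega he hy
  have hinjK := FaithfulSMul.algebraMap_injective K M
  have he0 : e ≠ 0 := by
    rintro rfl
    exact he 0 (zero_pow hq.ne_zero)
  have hy0 : y ≠ 0 := by
    rintro rfl
    rw [zero_pow hq.ne_zero] at hy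
    exact he0 (hinjK (by rw [← hy, map_zero]))
  have hz0 : (z : M) ≠ 0 := by
    intro h
    rw [h, zero_pow hq.ne_zero] at hz
    exact hd0 (hinjK (by rw [← hz, map_zero]))
  obtain ⟨h, hhω, hhy⟩ := exists_move hy he hω
  obtain ⟨a₁, ha₁⟩ := exists_exp hω h hy0 hy
  obtain ⟨b₁, hb₁⟩ := exists_exp hω h hz0 hz
  have ha₁0 : a₁ ≠ 0 := by
    rintro rfl
    apply hhy
    rw [ha₁]
    unfold ex
    rw [ZMod.val_zero, pow_zero, mul_one]
  -- powers of `h`
  have hpow : ∀ (n : ℕ) (c : ZMod q) (w : M), h w = w * ex ω c →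
      (h ^ n) w = w * ex ω ((n : ZMod q) * c) := by
    intro n c w hw
    have hc : h (ex ω c) = ex ω c := by
      unfold ex
      rw [map_pow, hhω]
    induction n with
    | zero =>
      rw [Nat.cast_zero, zero_mul, pow_zero]
      unfold ex
      rw [ZMod.val_zero, pow_zero, mul_one]
      rfl
    | succ n ih =>
      have hc' : h (ex ω ((n : ZMod q) * c)) = ex ω ((n : ZMod q) * c) := by
        unfold ex
        rw [map_pow, hhω]
      rw [pow_succ', AlgEquiv.mul_apply, ih, map_mul, hw, hc', Nat.cast_succ, add_mul, one_mul,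
        ex_add hω]
      ring
  -- the exponents of every automorphism
  have key : ∀ g : Gal(M/K), ∃ s : ZMod q, g y = y * ex ω (s * a₁) ∧
      g (z : M) = (z : M) * ex ω (s * b₁) := by
    intro g
    obtain ⟨a, ha⟩ := exists_exp hω g hy0 hy
    refine ⟨a / a₁, ?_, ?_⟩
    · rw [div_mul_cancel₀ _ ha₁0]
      exact ha
    · have : NeZero q := ⟨hq.ne_zero⟩
      have h1 : (h ^ (a / a₁).val) y = g y := by
        rw [hpow _ _ _ ha₁, ha, ZMod.natCast_zmod_val, div_mul_cancel₀ _ ha₁0]
      have h2 : ((h ^ (a / a₁).val)⁻¹ * g) ∈ fixingSubgroup K⟮y⟯ := by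
        rw [← stab_eq, MulAction.mem_stabilizer_iff]
        change (h ^ (a / a₁).val)⁻¹ (g y) = y
        rw [← h1]
        exact AlgEquiv.symm_apply_apply (h ^ (a / a₁).val) y
      have h3 : ((h ^ (a / a₁).val)⁻¹ * g) (z : M) = z := h2 z
      have h4 : g (z : M) = (h ^ (a / a₁).val) (z : M) := by
        have h5 := congrArg (h ^ (a / a₁).val) h3
        rw [← h5]
        exact (AlgEquiv.apply_symm_apply (h ^ (a / a₁).val) (g (z : M))).symm
      rw [h4, hpow _ _ _ hb₁, ZMod.natCast_zmod_val]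
  refine ⟨-b₁ / a₁, ?_⟩
  have hfix : ∀ g : Gal(M/K), g (y ^ (-b₁ / a₁).val * (z : M)) = y ^ (-b₁ / a₁).val * (z : M) := by
    intro g
    obtain ⟨s, h1, h2⟩ := key g
    rw [map_mul, map_pow, h1, h2, mul_pow, ← ex_mul hω]
    have h3 : ex ω ((s * a₁) * (-b₁ / a₁)) * ex ω (s * b₁) = 1 := by
      rw [← ex_add hω]
      have h4 : s * a₁ * (-b₁ / a₁) + s * b₁ = 0 := by
        field_simp
        ring
      rw [h4]
      unfold ex
      rw [ZMod.val_zero, pow_zero]
    linear_combination (y ^ (-b₁ / a₁).val * (z : M)) * h3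
  obtain ⟨b, hb⟩ := (IsGalois.mem_range_algebraMap_iff_fixed (F := K)
    (y ^ (-b₁ / a₁).val * (z : M))).mpr hfix
  refine ⟨b, hinjK ?_⟩
  rw [map_pow, hb, map_mul, map_pow, mul_pow, hz, ← pow_mul, mul_comm (-b₁ / a₁).val q, pow_mul,
    hy]

end Pool.Agent.Lib.MP_1a91b9_ntA
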