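import Pool.Agent.Lib.MP_1a91b9_nt.FinalMod
import Pool.Agent.Lib.MP_1a91b9_ntA.Kum
import Pool.Agent.Lib.MP_1a91b9_ntA.PowK
import Pool.Agent.Lib.MP_1a91b9_ntA.CoreP
import Pool.Agent.Lib.MP_1a91b9_ntA.Maj

/-!
# The majority law over one field
-/

set_option autoImplicit false

namespace Pool.Agent.Lib.MP_1a91b9_ntA

open IsDedekindDomain NumberField Polynomial IntermediateField Pool.Agent.Lib.MP_1a91b9_nt

universe u

/-- The conjecture modulo `m` holds for `W` over the fields generated over `K` by an `l`-th root of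
`d`. -/
def One {K : Type u} [Field K] [NumberField K] (l m : ℕ) (W : WeierstrassCurve K) (d : K) : Prop :=
  ∀ (M : Type u) [Field M] [NumberField M] [Algebra K M] (x : M), x ^ l = algebraMap K M d →
    K⟮x⟯ = ⊤ → RankMod m (W.baseChange M)

/-- The conjecture modulo `m` holds for `W` over the fields generated over `K` by an `l`-th root of
`d` and an `l`-th root of `e`. -/
def Two {K : Type u} [Field K] [NumberField K] (l m : ℕ) (W : WeierstrassCurve K) (d e : K) :
    Prop :=
  ∀ (M : Type u) [Field M] [NumberField M] [Algebra K M] (x y : M), x ^ l = algebraMap K M d →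
    y ^ l = algebraMap K M e → adjoin K {x, y} = ⊤ → RankMod m (W.baseChange M)

theorem rankMod_pow {K : Type u} [Field K] [NumberField K] {W : WeierstrassCurve K} {m : ℕ}
    (h : RankMod m W) (k : ℕ) : RankModPow k m W := by
  obtain ⟨g, r, o, hg1, hg2, hg3, hg4, hg5⟩ := h
  refine ⟨g ^ (k : ℤ), r, k * o, hg1.zpow k, ?_, hg3, ?_, ?_⟩
  · intro s hs
    rw [Pi.pow_apply, hg2 s hs, zpow_natCast]
  · rw [meromorphicOrderAt_zpow (hg1 1 (Set.mem_univ _)), hg4]
    norm_cast
  · rw [← mul_sub]
    exact Dvd.dvd.mul_left hg5 _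

theorem One.of_pow {K : Type u} [Field K] [NumberField K] {l m : ℕ} {W : WeierstrassCurve K}
    {d : K} (h : One l m W d) {b : K} (hb : b ^ l = d) : RankMod m W := by
  have h1 := h K b (by rw [hb]; rfl) (by
    rw [eq_top_iff]
    intro x _
    exact IntermediateField.algebraMap_mem _ x)
  have h2 : W.baseChange K = W := WeierstrassCurve.map_id W
  rwa [h2] at h1

/-- One good pair with good products. -/
theorem pair_pow {K : Type u} [Field K] [NumberField K] (W : WeierstrassCurve K)
    [W.IsElliptic] (m : ℕ) {q : ℕ} (hq : q.Prime) (e d : K) (he0 : e ≠ 0) (hd0 : d ≠ 0)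
    (h1 : One q m W e) (h2 : Two q m W e d) (h3 : ∀ i, i < q → One q m W (e ^ i * d)) :
    RankModPow q m W := by
  classical
  have hfq : Fact q.Prime := ⟨hq⟩
  by_cases he : ∀ b : K, b ^ q ≠ e
  swap
  · push Not at he
    obtain ⟨b, hb⟩ := he
    exact rankMod_pow (h1.of_pow hb) q
  by_cases hd : ∀ (i : ZMod q) (b : K), b ^ q ≠ e ^ i.val * d
  swap
  · push Not at hd
    obtain ⟨i, b, hb⟩ := hd
    exact rankMod_pow ((h3 i.val (ZMod.val_lt i)).of_pow hb) q
  obtain ⟨M, _, _, _, _, y, z, hy, hz⟩ := ext_gal (K := K) hq e d he0 hd0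
  have hd' : ∀ b : K⟮y⟯, (b : M) ^ q ≠ algebraMap K M d := by
    intro b hb
    obtain ⟨i, c, hc⟩ := pow_of_pow_adjoin hy he hd0 b hb
    exact hd i c hc
  have hrel := rel_kummer hy hz he hd hd'
  refine core_modPow (M := M) W (fun H => ∑ i : ZMod q,
    (if H = MulAction.stabilizer Gal(M/K) (y ^ i.val * z) then (1 : ℤ) else 0) +
    (if H = MulAction.stabilizer Gal(M/K) y then 1 else 0) -
    (if H = MulAction.stabilizer Gal(M/K) y ⊓ MulAction.stabilizer Gal(M/K) z then 1 else 0)) q m
    hq.ne_zero ?_ ?_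
  · intro g
    have h1 : ((∑ i : ZMod q, fixNum (MulAction.stabilizer Gal(M/K) (y ^ i.val * z)) g +
      fixNum (MulAction.stabilizer Gal(M/K) y) g : ℕ) : ℤ) =
      ((fixNum (MulAction.stabilizer Gal(M/K) y ⊓ MulAction.stabilizer Gal(M/K) z) g + q : ℕ) : ℤ)
      := by rw [hrel g]
    simp only [sub_mul, add_mul, Finset.sum_mul, ite_mul, one_mul, zero_mul,
      Finset.sum_sub_distrib, Finset.sum_add_distrib, Finset.sum_ite_eq', Finset.mem_univ, if_true]
    rw [Finset.sum_comm]
    simp only [Finset.sum_ite_eq', Finset.mem_univ, if_true]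
    push_cast at h1
    linarith
  · -- the fields generated by one root
    have one : ∀ (c : K) (w : M), w ^ q = algebraMap K M c → One q m W c →
        RankMod m (W.baseChange (fixedField (MulAction.stabilizer Gal(M/K) w))) := by
      intro c w hw hc
      have hF : fixedField (MulAction.stabilizer Gal(M/K) w) = adjoin K {w} :=
        fixedField_stabilizer w
      have hwF : w ∈ fixedField (MulAction.stabilizer Gal(M/K) w) := by
        rw [hF]
        exact mem_adjoin_simple_self K w
      refine hc (fixedField (MulAction.stabilizer Gal(M/K) w)) ⟨w, hwF⟩ ?_ ?_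
      · apply Subtype.ext
        change w ^ q = _
        rw [hw]
        rfl
      · refine gen_top _ hF _ ?_
        intro t ht
        have ht' : t = w := ht
        subst ht'
        exact mem_adjoin_simple_self K _
    intro H hH
    by_cases c1 : ∃ i : ZMod q, H = MulAction.stabilizer Gal(M/K) (y ^ i.val * z)
    · obtain ⟨i, rfl⟩ := c1
      refine one (e ^ i.val * d) _ ?_ (h3 i.val (ZMod.val_lt i))
      rw [mul_pow, ← pow_mul, mul_comm i.val q, pow_mul, hy, hz, map_mul, map_pow]
    by_cases c2 : H = MulAction.stabilizer Gal(M/K) y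
    · subst c2
      exact one e y hy h1
    have c3 : H = MulAction.stabilizer Gal(M/K) y ⊓ MulAction.stabilizer Gal(M/K) z := by
      by_contra c3
      apply hH
      have h4 : ∀ i : ZMod q, (if H = MulAction.stabilizer Gal(M/K) (y ^ i.val * z) then (1 : ℤ)
          else 0) = 0 := fun i => if_neg fun h5 => c1 ⟨i, h5⟩
      rw [Finset.sum_congr rfl fun i _ => h4 i, if_neg c2, if_neg c3]
      simp
    -- the field generated by two roots
    have hF : fixedField H = adjoin K {y, z} := by
      rw [c3, stab_eq, stab_eq, ← fixingSubgroup_sup, IsGalois.fixedField_fixingSubgroup,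
        Set.insert_eq, adjoin_union]
    have hyF : y ∈ fixedField H := by
      rw [hF]
      exact subset_adjoin K _ (Set.mem_insert y {z})
    have hzF : z ∈ fixedField H := by
      rw [hF]
      exact subset_adjoin K _ (Set.mem_insert_of_mem y rfl)
    refine h2 (fixedField H) ⟨y, hyF⟩ ⟨z, hzF⟩ ?_ ?_ ?_
    · apply Subtype.ext
      change y ^ q = _
      rw [hy]
      rfl
    · apply Subtype.ext
      change z ^ q = _
      rw [hz]
      rfl
    · refine gen_top _ hF _ ?_
      intro t ht
      rcases ht with rfl | ht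
      · exact subset_adjoin K _ (Set.mem_insert _ _)
      · have ht' : t = z := ht
        subst ht'
        exact subset_adjoin K _ (Set.mem_insert_of_mem _ rfl)

/-- The pairs of classes for which the conjecture holds over the fields generated by a root of the
first class, and by roots of both. -/
def Good {K : Type u} [Field K] [NumberField K] (l m : ℕ) (W : WeierstrassCurve K)
    (V : Subgroup (Kˣ ⧸ (powMonoidHom l : Kˣ →* Kˣ).range)) : Set (V × V) :=
  {t | ∀ d e : Kˣ, (QuotientGroup.mk d : Kˣ ⧸ (powMonoidHom l : Kˣ →* Kˣ).range) = t.1 →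
    (QuotientGroup.mk e : Kˣ ⧸ (powMonoidHom l : Kˣ →* Kˣ).range) = t.2 →
    One l m W d ∧ Two l m W d e}

/-- The majority law for the `l`-th power of the `L`-series. -/
theorem law_pow {K : Type u} [Field K] [NumberField K] (W : WeierstrassCurve K)
    [W.IsElliptic] (m : ℕ) {l : ℕ} (hl : l.Prime)
    (V : Subgroup (Kˣ ⧸ (powMonoidHom l : Kˣ →* Kˣ).range)) [Finite V]
    (h : (l - 1) * Nat.card V ^ 2 < l * Nat.card (Good l m W V)) : RankModPow l m W := by
  let G : Set V := {v | ∀ d : Kˣ,
    (QuotientGroup.mk d : Kˣ ⧸ (powMonoidHom l : Kˣ →* Kˣ).range) = v → One l m W d}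
  have hG : ∀ t ∈ Good l m W V, t.1 ∈ G := by
    intro t ht d hd
    obtain ⟨e, he⟩ := QuotientGroup.mk_surjective t.2.1
    exact (ht d e hd he).1
  obtain ⟨t, ht, hj⟩ := maj hl.two_le G (Good l m W V) hG h
  obtain ⟨d, hd⟩ := QuotientGroup.mk_surjective t.1.1
  obtain ⟨e, he⟩ := QuotientGroup.mk_surjective t.2.1
  obtain ⟨h1, h2⟩ := ht d e hd he
  refine pair_pow W m hl d e d.ne_zero e.ne_zero h1 h2 fun i hi => ?_
  have h3 := hj i hi (d ^ i * e) (by
    rw [QuotientGroup.mk_mul, QuotientGroup.mk_pow, hd, he]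
    rfl)
  rw [Units.val_mul, Units.val_pow_eq_pow_val] at h3
  exact h3

/-- The majority law: two coprime degrees. -/
theorem law_one {K : Type u} [Field K] [NumberField K] (W : WeierstrassCurve K)
    [W.IsElliptic] (m : ℕ) {p q : ℕ} (hp : p.Prime) (hq : q.Prime) (hpq : p ≠ q)
    (h : ∀ l : ℕ, l = p ∨ l = q → ∃ V : Subgroup (Kˣ ⧸ (powMonoidHom l : Kˣ →* Kˣ).range),
      Finite V ∧ (l - 1) * Nat.card V ^ 2 < l * Nat.card (Good l m W V)) : RankMod m W := by
  obtain ⟨V, hV, h1⟩ := h p (Or.inl rfl)
  obtain ⟨V', hV', h2⟩ := h q (Or.inr rfl)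
  exact (law_pow W m hp V h1).coprime ((Nat.coprime_primes hp hq).mpr hpq) (law_pow W m hq V' h2)

end Pool.Agent.Lib.MP_1a91b9_ntA
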