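import Pool.Agent.Lib.MP_1a91b9_ntA.LawK

/-!
# The majority condition
-/

set_option autoImplicit false

namespace Pool.Agent.Lib.MP_1a91b9_ntA

open NumberField Pool.Agent.Lib.MP_1a91b9_nt

universe u

/-- There is a finite group `V` of classes of `Kˣ` modulo `l`-th powers such that for more than
`1 - 1 / l` of the pairs `(d, e)` in `V × V` the conjecture modulo `m` holds for `W` over
`K (d ^ (1 / l))` and over `K (d ^ (1 / l), e ^ (1 / l))`. -/
def Majority {K : Type u} [Field K] [NumberField K] (l m : ℕ) (W : WeierstrassCurve K) : Prop :=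
  ∃ V : Subgroup (Kˣ ⧸ (powMonoidHom l : Kˣ →* Kˣ).range), Finite V ∧
    (l - 1) * Nat.card V ^ 2 < l * Nat.card (Good l m W V)

end Pool.Agent.Lib.MP_1a91b9_ntA
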