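import Pool.Agent.Lib.MP_1a91b9_nt.S4Fix
import Pool.Agent.Lib.MP_1a91b9_nt.S4Stab
import Pool.Agent.Lib.MP_1a91b9_ntA.Cnt

/-!
# The relation of permutation characters for two roots
-/

set_option autoImplicit false

namespace Pool.Agent.Lib.MP_1a91b9_ntA

open Polynomial IntermediateField Pool.Agent.Lib.MP_1a91b9_nt

universe u

theorem fixNum_inf {G : Type*} [Group G] [Finite G] (H L : Subgroup G)
    (h : (H ⊓ L).index = H.index * L.index) (g : G) :
    fixNum (H ⊓ L) g = fixNum H g * fixNum L g := by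
  classical
  obtain ⟨φ, hφ⟩ : ∃ φ : G ⧸ (H ⊓ L) → (G ⧸ H) × (G ⧸ L), ∀ x : G,
      φ (QuotientGroup.mk x) = (QuotientGroup.mk x, QuotientGroup.mk x) :=
    ⟨fun x => (Subgroup.quotientMapOfLE inf_le_left x, Subgroup.quotientMapOfLE inf_le_right x),
      fun x => rfl⟩
  have hinj : Function.Injective φ := by
    intro x y hxy
    obtain ⟨a, rfl⟩ := QuotientGroup.mk_surjective x
    obtain ⟨b, rfl⟩ := QuotientGroup.mk_surjective y
    rw [hφ, hφ, Prod.mk.injEq, QuotientGroup.eq, QuotientGroup.eq] at hxy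
    rw [QuotientGroup.eq]
    exact ⟨hxy.1, hxy.2⟩
  have hbij : Function.Bijective φ := by
    refine hinj.bijective_of_nat_card_le ?_
    rw [Nat.card_prod]
    exact h.symm.le
  have hsm : ∀ x : G ⧸ (H ⊓ L), φ (g • x) = (g • (φ x).1, g • (φ x).2) := by
    intro x
    obtain ⟨a, rfl⟩ := QuotientGroup.mk_surjective x
    have e : g • (QuotientGroup.mk a : G ⧸ (H ⊓ L)) = QuotientGroup.mk (g * a) := rfl
    rw [e, hφ, hφ]
    rfl
  unfold fixNum
  rw [← Nat.card_prod]
  refine Nat.card_congr (Equiv.ofBijective (fun x => (⟨(φ x.1).1, ?_⟩, ⟨(φ x.1).2, ?_⟩)) ⟨?_, ?_⟩)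
  · have h1 : φ (g • x.1) = φ x.1 := congrArg φ x.2
    rw [hsm] at h1
    exact congrArg Prod.fst h1
  · have h1 : φ (g • x.1) = φ x.1 := congrArg φ x.2
    rw [hsm] at h1
    exact congrArg Prod.snd h1
  · intro x y hxy
    refine Subtype.ext (hinj (Prod.ext ?_ ?_))
    · exact congrArg (fun z => (z.1 : G ⧸ H)) hxy
    · exact congrArg (fun z => (z.2 : G ⧸ L)) hxy
  · rintro ⟨⟨a, ha⟩, ⟨b, hb⟩⟩
    obtain ⟨x, hx⟩ := hbij.2 (a, b)
    refine ⟨⟨x, ?_⟩, ?_⟩
    · apply hinj
      rw [hsm, hx]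
      exact Prod.ext ha hb
    · refine Prod.ext (Subtype.ext ?_) (Subtype.ext ?_)
      · exact congrArg Prod.fst hx
      · exact congrArg Prod.snd hx

theorem fixNum_one {G : Type*} [Group G] (H : Subgroup G) : fixNum H 1 = H.index := by
  unfold fixNum
  rw [MulAction.fixedBy_one_eq_univ]
  exact Nat.card_congr (Equiv.Set.univ _)

section

variable {K M : Type u} [Field K] [CharZero K] [Field M] [Algebra K M] [FiniteDimensional K M]
  [IsGalois K M] {q : ℕ} [Fact q.Prime]

/-- a primitive root of unity in `M` -/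
theorem exists_omega {c : K} (hc : ∀ b : K, b ^ q ≠ c) {y : M} (hy : y ^ q = algebraMap K M c) :
    ∃ ω : M, IsPrimitiveRoot ω q := by
  classical
  have hq : q.Prime := Fact.out
  have hirr : Irreducible (X ^ q - C c : K[X]) := X_pow_sub_C_irreducible_of_prime hq hc
  have hmonic : (X ^ q - C c : K[X]).Monic := monic_X_pow_sub_C c hq.ne_zero
  have hroot : aeval y (X ^ q - C c : K[X]) = 0 := by
    rw [map_sub, map_pow, aeval_X, aeval_C, hy, sub_self]
  have hmin : minpoly K y = X ^ q - C c := (minpoly.eq_of_irreducible_of_monic hirr hroot hmonic).symm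
  have hspl : ((X ^ q - C c : K[X]).map (algebraMap K M)).Splits := by
    rw [← hmin]
    exact IsGalois.splits K y
  have hsep : ((X ^ q - C c : K[X]).map (algebraMap K M)).Separable := hirr.separable.map
  have hcard : ((X ^ q - C c : K[X]).map (algebraMap K M)).roots.card = q := by
    rw [← hspl.natDegree_eq_card_roots, natDegree_map, natDegree_X_pow_sub_C]
  have hnd := nodup_roots hsep
  obtain ⟨z, hz, hzy⟩ : ∃ z ∈ ((X ^ q - C c : K[X]).map (algebraMap K M)).roots, z ≠ y := by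
    by_contra hcon
    push Not at hcon
    have h1 : ((X ^ q - C c : K[X]).map (algebraMap K M)).roots =
        Multiset.replicate q y := by
      rw [Multiset.eq_replicate]
      exact ⟨hcard, hcon⟩
    rw [h1, Multiset.nodup_iff_count_le_one] at hnd
    have h2 := hnd y
    rw [Multiset.count_replicate_self] at h2
    have := hq.two_le
    omega
  have hz' : z ^ q = algebraMap K M c := by
    have h1 := isRoot_of_mem_roots hz
    rw [IsRoot.def, eval_map, eval₂_sub, eval₂_pow, eval₂_X, eval₂_C] at h1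
    exact sub_eq_zero.mp h1
  have hc0 : c ≠ 0 := by
    rintro rfl
    exact hc 0 (zero_pow hq.ne_zero)
  have hy0 : y ≠ 0 := by
    rintro rfl
    rw [zero_pow hq.ne_zero] at hy
    exact hc0 ((FaithfulSMul.algebraMap_injective K M) (by rw [← hy, map_zero]))
  refine ⟨z / y, ?_⟩
  have h1 : (z / y) ^ q = 1 := by
    rw [div_pow, hz', hy, div_self]
    rw [← hy]
    exact pow_ne_zero _ hy0
  have h2 : z / y ≠ 1 := by
    intro h
    exact hzy ((div_eq_one_iff_eq hy0).mp h)
  have h3 : orderOf (z / y) = q := orderOf_eq_prime h1 h2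
  rw [← h3]
  exact IsPrimitiveRoot.orderOf _

theorem fix_card {c : K} (hc : ∀ b : K, b ^ q ≠ c) {y : M} (hy : y ^ q = algebraMap K M c)
    {ω : M} (hω : IsPrimitiveRoot ω q) (g : Gal(M/K)) {ε : ZMod q} (hε : g ω = ex ω ε)
    {a : ZMod q} (ha : g y = y * ex ω a) :
    fixNum (MulAction.stabilizer Gal(M/K) y) g = sol ε a := by
  have hq : q.Prime := Fact.out
  have hirr : Irreducible (X ^ q - C c : K[X]) := X_pow_sub_C_irreducible_of_prime hq hc
  have hroot : aeval y (X ^ q - C c : K[X]) = 0 := by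
    rw [map_sub, map_pow, aeval_X, aeval_C, hy, sub_self]
  have hc0 : c ≠ 0 := by
    rintro rfl
    exact hc 0 (zero_pow hq.ne_zero)
  have hy0 : y ≠ 0 := by
    rintro rfl
    rw [zero_pow hq.ne_zero] at hy
    exact hc0 ((FaithfulSMul.algebraMap_injective K M) (by rw [← hy, map_zero]))
  rw [fixNum_stabilizer _ hirr y hroot g, ← card_fix hω (g : M →+* M) hε hy0 ha]
  refine Nat.card_congr (Equiv.subtypeEquivRight fun b => ?_)
  rw [map_sub, map_pow, aeval_X, aeval_C, ← hy, sub_eq_zero]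
  rfl

theorem exists_exp {ω : M} (hω : IsPrimitiveRoot ω q) (g : Gal(M/K)) {c : K} {y : M}
    (hy0 : y ≠ 0) (hy : y ^ q = algebraMap K M c) : ∃ a : ZMod q, g y = y * ex ω a := by
  obtain ⟨a, ha⟩ := ex_surj hω (x := g y / y) (by
    rw [div_pow, ← map_pow, hy, AlgEquiv.commutes, ← hy, div_self (pow_ne_zero _ hy0)])
  exact ⟨a, by rw [ha, mul_div_cancel₀ _ hy0]⟩

theorem stab_eq (y : M) : MulAction.stabilizer Gal(M/K) y = fixingSubgroup K⟮y⟯ := by
  rw [← fixedField_stabilizer, fixingSubgroup_fixedField]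

/-- **The relation.** -/
theorem rel_kummer {e d : K} {y z : M} (hy : y ^ q = algebraMap K M e)
    (hz : z ^ q = algebraMap K M d) (he : ∀ b : K, b ^ q ≠ e)
    (hd : ∀ (i : ZMod q) (b : K), b ^ q ≠ e ^ i.val * d)
    (hd' : ∀ b : K⟮y⟯, (b : M) ^ q ≠ algebraMap K M d) (g : Gal(M/K)) :
    ∑ i : ZMod q, fixNum (MulAction.stabilizer Gal(M/K) (y ^ i.val * z)) g +
      fixNum (MulAction.stabilizer Gal(M/K) y) g =
      fixNum (MulAction.stabilizer Gal(M/K) y ⊓ MulAction.stabilizer Gal(M/K) z) g + q := by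
  have hq : q.Prime := Fact.out
  have : NeZero q := ⟨hq.ne_zero⟩
  obtain ⟨ω, hω⟩ := exists_omega he hy
  have hinjK := FaithfulSMul.algebraMap_injective K M
  have he0 : e ≠ 0 := by
    rintro rfl
    exact he 0 (zero_pow hq.ne_zero)
  have hd1 : ∀ b : K, b ^ q ≠ d := by
    intro b hb
    have := hd 0 b
    rw [ZMod.val_zero, pow_zero, one_mul] at this
    exact this hb
  have hd0 : d ≠ 0 := by
    rintro rfl
    exact hd1 0 (zero_pow hq.ne_zero)
  have hy0 : y ≠ 0 := by
    rintro rfl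
    rw [zero_pow hq.ne_zero] at hy
    exact he0 (hinjK (by rw [← hy, map_zero]))
  have hz0 : z ≠ 0 := by
    rintro rfl
    rw [zero_pow hq.ne_zero] at hz
    exact hd0 (hinjK (by rw [← hz, map_zero]))
  -- the counts for every element
  have key : ∀ g : Gal(M/K), ∃ ε a b : ZMod q,
      fixNum (MulAction.stabilizer Gal(M/K) y) g = sol ε a ∧
      fixNum (MulAction.stabilizer Gal(M/K) z) g = sol ε b ∧
      (∀ i : ZMod q, fixNum (MulAction.stabilizer Gal(M/K) (y ^ i.val * z)) g =
        sol ε (i * a + b)) ∧ (g = 1 → ε = 1 ∧ a = 0 ∧ b = 0) := by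
    intro g
    obtain ⟨ε, hε⟩ := ex_surj hω (x := g ω) (by rw [← map_pow, hω.pow_eq_one, map_one])
    obtain ⟨a, ha⟩ := exists_exp hω g hy0 hy
    obtain ⟨b, hb⟩ := exists_exp hω g hz0 hz
    refine ⟨ε, a, b, fix_card he hy hω g hε.symm ha, fix_card hd1 hz hω g hε.symm hb, ?_, ?_⟩
    · intro i
      refine fix_card (hd i) (y := y ^ i.val * z) ?_ hω g hε.symm ?_
      · rw [mul_pow, ← pow_mul, mul_comm i.val q, pow_mul, hy, hz, map_mul, map_pow]
      · rw [map_mul, map_pow, ha, hb, ex_add hω, mul_comm i a, ex_mul hω, mul_pow]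
        ring
    · rintro rfl
      refine ⟨ex_inj hω ?_, ex_inj hω ?_, ex_inj hω ?_⟩
      · rw [hε]
        unfold ex
        rw [ZMod.val_one, pow_one]
        rfl
      · have h1 : y * ex ω a = y * 1 := by
          rw [← ha, mul_one]
          rfl
        rw [mul_left_cancel₀ hy0 h1]
        unfold ex
        rw [ZMod.val_zero, pow_zero]
      · have h1 : z * ex ω b = z * 1 := by
          rw [← hb, mul_one]
          rfl
        rw [mul_left_cancel₀ hz0 h1]
        unfold ex
        rw [ZMod.val_zero, pow_zero]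
  -- the index
  obtain ⟨ε₁, a₁, b₁, k1, k2, -, k4⟩ := key 1
  obtain ⟨rfl, rfl, rfl⟩ := k4 rfl
  rw [fixNum_one, sol_one, if_pos rfl] at k1 k2
  have hindex : (MulAction.stabilizer Gal(M/K) y ⊓ MulAction.stabilizer Gal(M/K) z).index =
      (MulAction.stabilizer Gal(M/K) y).index * (MulAction.stabilizer Gal(M/K) z).index := by
    rw [k1, k2, stab_eq, stab_eq, ← fixingSubgroup_sup, ← finrank_eq_fixingSubgroup_index]
    have h1 : Module.finrank K K⟮y⟯ = q := by
      rw [finrank_eq_fixingSubgroup_index, ← stab_eq, k1]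
    have h2 : Module.finrank K⟮y⟯ (K⟮y⟯)⟮z⟯ = q := by
      have hirr : Irreducible (X ^ q - C (algebraMap K K⟮y⟯ d)) := by
        refine X_pow_sub_C_irreducible_of_prime hq fun b hb => hd' b ?_
        have := congrArg (algebraMap K⟮y⟯ M) hb
        rw [map_pow, ← IsScalarTower.algebraMap_apply] at this
        exact this
      have hroot : aeval z (X ^ q - C (algebraMap K K⟮y⟯ d)) = 0 := by
        rw [map_sub, map_pow, aeval_X, aeval_C, hz, ← IsScalarTower.algebraMap_apply, sub_self]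
      have hmin := minpoly.eq_of_irreducible_of_monic hirr hroot
        (monic_X_pow_sub_C _ hq.ne_zero)
      rw [IntermediateField.adjoin.finrank (Algebra.IsIntegral.isIntegral z), ← hmin,
        natDegree_X_pow_sub_C]
    have h3 : K⟮y⟯ ⊔ K⟮z⟯ = ((K⟮y⟯)⟮z⟯).restrictScalars K := by
      rw [adjoin_adjoin_left, adjoin_union]
    rw [h3]
    have h4 := Module.finrank_mul_finrank K K⟮y⟯ (K⟮y⟯)⟮z⟯
    rw [h1, h2] at h4
    exact h4.symm
  obtain ⟨ε, a, b, g1, g2, g3, -⟩ := key g
  rw [fixNum_inf _ _ hindex, g1, g2, Finset.sum_congr rfl fun i _ => g3 i]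
  exact sol_rel ε a b

end

end Pool.Agent.Lib.MP_1a91b9_ntA
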